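import Pool.Agent.H13.EDM.Targets
import Pool.Agent.H8.TD.Targets
import Pool.Agent.H8.TD.All

/-!
# MUL: the degree of a section on a curve
-/

set_option autoImplicit false

open MvPolynomial
open Pool.Agent.H12.ZD (pmap)
open Pool.Agent.H18.HIT
open Pool.Agent.H8.ZA (HFam Const NA)
open Pool.Agent.H8.TD (lc dg Wsp T_CLZ T_LOW)
open Pool.Agent.H8.TX (hn)
open Pool.Agent.H13.EDM

namespace Pool.Agent.H36.EDM

/-- a transcendental element of a curve -/
theorem fin_curve {κ C : Type} [Field κ] [Field C] [Algebra κ C] (h : Algebra.trdeg κ C = (1 : ℕ))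
    (hfg : (⊤ : IntermediateField κ C).FG) {z : C} (hz : Transcendental κ z) :
    FiniteDimensional (IntermediateField.adjoin κ {z}) C := by
  have h1 : AlgebraicIndependent κ (fun _ : Unit => z) :=
    algebraicIndependent_unique_type_iff.2 hz
  have h2 : IsTranscendenceBasis κ (fun _ : Unit => z) := by
    refine h1.isTranscendenceBasis_of_trdeg_le_of_finite ?_
    rw [h]; simp
  have halg := h2.isAlgebraic_field
  have h3 : Set.range (fun _ : Unit => z) = {z} := Set.range_const
  rw [h3] at halg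
  have h4 : Algebra.EssFiniteType κ C := IntermediateField.fg_top_iff.1 hfg
  have h5 : Algebra.EssFiniteType (IntermediateField.adjoin κ {z}) C :=
    Algebra.EssFiniteType.of_comp κ _ C
  obtain ⟨S, hS⟩ := IntermediateField.fg_top (IntermediateField.adjoin κ {z}) C
  have h6 : FiniteDimensional (IntermediateField.adjoin κ {z})
      (IntermediateField.adjoin (IntermediateField.adjoin κ {z}) (S : Set C)) :=
    IntermediateField.finiteDimensional_adjoin fun x _ => (halg.isAlgebraic x).isIntegral
  rw [hS] at h6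
  exact (IntermediateField.topEquiv (F := IntermediateField.adjoin κ {z})
    (E := C)).toLinearEquiv.finiteDimensional

theorem mul_of (hCLZ : T_CLZ) (hLOW : T_LOW) : T_MUL := by
  intro a b M M' n l k κ C _ _ _ _ _ _ _ _ _ φ ψ z htr hfg hM hM' hz
  classical
  by_cases hfin : FiniteDimensional (IntermediateField.adjoin κ {z}) C
  swap
  · have h1 : dg κ {z} = 0 := Module.finrank_of_not_finite hfin
    rw [h1]
    exact Nat.zero_le _
  have hztr : Transcendental κ z := by
    intro halg
    have h1 : FiniteDimensional κ (IntermediateField.adjoin κ {z}) :=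
      IntermediateField.adjoin.finiteDimensional halg.isIntegral
    have h2 : FiniteDimensional κ C :=
      FiniteDimensional.trans κ (IntermediateField.adjoin κ {z}) C
    have h2' : Algebra.IsAlgebraic κ C := Algebra.IsAlgebraic.of_finite κ C
    have h3 : Algebra.trdeg κ C = 0 := trdeg_eq_zero
    rw [h3] at htr
    exact zero_ne_one (htr.trans Nat.cast_one)
  obtain ⟨s, hs⟩ := hfg
  obtain ⟨R, hR⟩ : ∃ R : Subalgebra κ C, R = Algebra.adjoin κ
      (Set.range φ ∪ Set.range ψ ∪ (s : Set C)) := ⟨_, rfl⟩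
  have hRfg : R.FG := by
    rw [Subalgebra.fg_def]
    exact ⟨_, ((Set.finite_range φ).union (Set.finite_range ψ)).union s.finite_toSet,
      hR.symm⟩
  have hφ : ∀ i, φ i ∈ R := fun i => by
    rw [hR]
    exact Algebra.subset_adjoin (Or.inl (Or.inl ⟨i, rfl⟩))
  have hψ : ∀ i, ψ i ∈ R := fun i => by
    rw [hR]
    exact Algebra.subset_adjoin (Or.inl (Or.inr ⟨i, rfl⟩))
  have hadj : IntermediateField.adjoin κ (R : Set C) = ⊤ := by
    rw [eq_top_iff, ← hs]
    refine IntermediateField.adjoin.mono κ _ _ ?_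
    intro x hx
    rw [hR]
    exact Algebra.subset_adjoin (Or.inr hx)
  have hW : ∀ x ∈ Wsp κ φ ψ n l, x ∈ R := by
    intro x hx
    have h1 : Wsp κ φ ψ n l ≤ Subalgebra.toSubmodule R := by
      refine Submodule.span_le.2 ?_
      rintro q ⟨α, β, _, _, rfl⟩
      have h2 : (∏ i, φ i ^ α i) * ∏ i, ψ i ^ β i ∈ R :=
        mul_mem (prod_mem fun i _ => pow_mem (hφ i) _) (prod_mem fun i _ => pow_mem (hψ i) _)
      exact h2
    exact h1 hx
  have hone : (1 : C) ∈ Wsp κ φ ψ n l := by
    refine Submodule.subset_span ⟨fun _ => 0, fun _ => 0, by simp, by simp, by simp⟩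
  have hbad := hLOW κ C R ⟨z, hW z hz⟩ hRfg hadj hztr hfin
  obtain ⟨c, hc⟩ := (hbad.preimage (f := algebraMap k κ)
    (algebraMap k κ).injective.injOn).infinite_compl.nonempty
  have hc' : Module.finrank κ (R ⧸ Ideal.span {(⟨z, hW z hz⟩ : R) -
      algebraMap κ R (algebraMap k κ c)}) = dg κ {z} := by
    by_contra h
    exact hc h
  rw [← hc']
  refine (hCLZ k κ C a b φ ψ M M' n l R ⟨z, hfin⟩ hRfg hφ hψ hM hM' _ ?_ ?_).2
  · show z - algebraMap κ C (algebraMap k κ c) ∈ Wsp κ φ ψ n l
    refine Submodule.sub_mem _ hz ?_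
    rw [Algebra.algebraMap_eq_smul_one]
    exact Submodule.smul_mem _ _ hone
  · intro h0
    have h1 : z - algebraMap κ C (algebraMap k κ c) = 0 := congrArg Subtype.val h0
    apply hztr
    rw [sub_eq_zero.1 h1]
    exact isAlgebraic_algebraMap _

theorem pf_MUL (_h : T_IFD) : T_MUL := mul_of Pool.Agent.H8.TD.Al.clz Pool.Agent.H8.TD.Al.low

end Pool.Agent.H36.EDM
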